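import Pool.Agent.Y491.ID.Order

/-!
# An element with many incomparable elements gives a nearly balanced pair
-/

set_option autoImplicit false
set_option linter.unusedSectionVars false

open Finset Filter Topology
open scoped Classical

namespace Pool.Agent.Y491.ID

open Pool.Agent.TH161.LW Pool.Agent.TH161.KS Pool.Agent.Y352.KSR Pool.Agent.Y491.KS
  Pool.Agent.H13R3.WB

lemma LL_le {K : ℕ} (hK : 1 ≤ K) : ((2 * LL K + 1 : ℕ) : ℝ) ≤ 10 ^ 25 * (K : ℝ) ^ 12 := by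
  have h1 : (1 : ℝ) ≤ (K : ℝ) := by exact_mod_cast hK
  have h6 : (1 : ℝ) ≤ (K : ℝ) ^ 6 := one_le_pow₀ h1
  unfold LL
  push_cast
  have h2 : (8 * (4 * (4000 * (K : ℝ) ^ 2) ^ 2) * (1104 * (K : ℝ) ^ 2)) = 565248000000 * (K : ℝ) ^ 6 := by
    ring
  rw [h2]
  obtain ⟨y, hy⟩ : ∃ y : ℝ, y = (K : ℝ) ^ 6 := ⟨_, rfl⟩
  have h3 : (K : ℝ) ^ 12 = y ^ 2 := by rw [hy]; ring
  rw [h3, ← hy]
  rw [← hy] at h6
  nlinarith

/-- few incomparable elements, with the scale -/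
theorem incomp_scale : ∃ G B₀ D : ℝ, 0 < G ∧ 1 ≤ B₀ ∧ 1 ≤ D ∧ ∀ ε : ℝ, 0 < ε → ε ≤ 1 / 2 →
      ∀ (P : Type) [Fintype P] [PartialOrder P],
      (∀ x y : P, x ≠ y → (1 / 2 - ε) * (eN P : ℝ) ≤ eP P x y →
        (eP P y x : ℝ) < (1 / 2 - ε) * (eN P : ℝ)) →
      ∀ x : P, ((univ.filter fun y : P => ¬ x ≤ y ∧ ¬ y ≤ x).card : ℝ) ≤
        G * (scl B₀ ε + D) ^ 144 := by
  obtain ⟨G, B₀, D, hG, hB₀, hD, h⟩ := exists_dis
  refine ⟨10 ^ 25 * G ^ 12, B₀, D, by positivity, hB₀, hD, fun ε hε hε2 P _ _ hcon x => ?_⟩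
  have _ : Nonempty P := ⟨x⟩
  obtain ⟨idx, K, hdis, hK⟩ := h ε hε hε2 P hcon
  have h1 := incomp_le hdis x
  have h2 : ((univ.filter fun y : P => ¬ x ≤ y ∧ ¬ y ≤ x).card : ℝ) ≤ ((2 * LL K + 1 : ℕ) : ℝ) := by
    exact_mod_cast h1
  refine h2.trans ((LL_le hdis.pos).trans ?_)
  have h3 : (K : ℝ) ^ 12 ≤ (G * (scl B₀ ε + D) ^ 12) ^ 12 :=
    pow_le_pow_left₀ (by positivity) hK 12
  calc (10 : ℝ) ^ 25 * (K : ℝ) ^ 12 ≤ 10 ^ 25 * (G * (scl B₀ ε + D) ^ 12) ^ 12 := by gcongr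
    _ = _ := by ring

/-- the main theorem in terms of numbers of linear extensions -/
theorem incomparable : ∃ B : ℝ, 0 < B ∧ ∀ ε : ℝ, 0 < ε → ε ≤ 1 / 2 →
      ∀ (P : Type) [Fintype P] [PartialOrder P] (x : P),
      Real.exp (B * Real.log (2 / ε) ^ 3 / ε ^ 4) ≤ Nat.card {y : P // ¬ x ≤ y ∧ ¬ y ≤ x} →
      ∃ u v : P, u ≠ v ∧ (1 / 2 - ε) * (eN P : ℝ) ≤ eP P u v ∧
        (1 / 2 - ε) * (eN P : ℝ) ≤ eP P v u := by
  obtain ⟨K, B₀, D, hK, hB₀, hD, hT⟩ := incomp_scale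
  obtain ⟨G, hG⟩ : ∃ G : ℝ, G = K * (1 + D) ^ 144 := ⟨_, rfl⟩
  have hG0 : 0 < G := by rw [hG]; positivity
  refine ⟨G + 18432 * B₀, by linarith, fun ε hε hε2 P _ _ x hx => ?_⟩
  by_contra hcon
  push Not at hcon
  have h0 : (Nat.card {y : P // ¬ x ≤ y ∧ ¬ y ≤ x} : ℝ) =
      ((univ.filter fun y : P => ¬ x ≤ y ∧ ¬ y ≤ x).card : ℝ) := by
    rw [Nat.card_eq_fintype_card, Fintype.card_subtype]
  rw [h0] at hx
  have h1 := hx.trans (hT ε hε hε2 P hcon x)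
  obtain ⟨E, hE⟩ : ∃ E : ℝ, E = Real.log (2 / ε) ^ 3 / ε ^ 4 := ⟨_, rfl⟩
  have hE1 : 1 ≤ E := by rw [hE]; exact E_ge_one hε hε2
  obtain ⟨s, hs⟩ : ∃ s : ℝ, s = scl B₀ ε := ⟨_, rfl⟩
  have hs1 : 1 ≤ s := by rw [hs]; exact scl_ge hB₀ hε hε2
  have hs2 : s ≤ Real.exp (128 * B₀ * E) := by rw [hs, hE]; exact scl_le hB₀ hε hε2
  rw [← hs] at h1
  have h2 : K * (s + D) ^ 144 ≤ G * s ^ 144 := by
    have h3 : s + D ≤ (1 + D) * s := by nlinarith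
    have h4 : (s + D) ^ 144 ≤ ((1 + D) * s) ^ 144 := pow_le_pow_left₀ (by linarith) h3 144
    calc K * (s + D) ^ 144 ≤ K * ((1 + D) * s) ^ 144 := mul_le_mul_of_nonneg_left h4 hK.le
      _ = G * s ^ 144 := by rw [hG, mul_pow]; ring
  have h6 : s ^ 144 ≤ Real.exp (18432 * B₀ * E) := by
    calc s ^ 144 ≤ Real.exp (128 * B₀ * E) ^ 144 := pow_le_pow_left₀ (by linarith) hs2 144
      _ = Real.exp (18432 * B₀ * E) := by
          rw [← Real.exp_nat_mul]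
          congr 1
          push_cast
          ring
  have h7 : G < Real.exp (G * E) := by
    have h8 := Real.add_one_le_exp (G * E)
    have h9 : G * 1 ≤ G * E := mul_le_mul_of_nonneg_left hE1 hG0.le
    linarith
  have h8 : G * s ^ 144 < Real.exp (G * E) * Real.exp (18432 * B₀ * E) :=
    calc G * s ^ 144 ≤ G * Real.exp (18432 * B₀ * E) := mul_le_mul_of_nonneg_left h6 hG0.le
      _ < _ := mul_lt_mul_of_pos_right h7 (Real.exp_pos _)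
  rw [← Real.exp_add] at h8
  have h9 : (G + 18432 * B₀) * Real.log (2 / ε) ^ 3 / ε ^ 4 = G * E + 18432 * B₀ * E := by
    rw [hE]
    ring
  rw [h9] at h1
  linarith

/-- the main theorem in terms of the balance constant -/
theorem incomparable_balance : ∃ B : ℝ, 0 < B ∧ ∀ ε : ℝ, 0 < ε → ε ≤ 1 / 2 →
      ∀ (P : Type) [Fintype P] [PartialOrder P] (x : P),
      Real.exp (B * Real.log (2 / ε) ^ 3 / ε ^ 4) ≤ Nat.card {y : P // ¬ x ≤ y ∧ ¬ y ≤ x} →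
      1 / 2 - ε ≤ balance P := by
  obtain ⟨B, hB, h⟩ := incomparable
  refine ⟨B, hB, fun ε hε hε2 P _ _ x hx => ?_⟩
  obtain ⟨u, v, -, h1, h2⟩ := h ε hε hε2 P x hx
  have he : (0 : ℝ) < eN P := by exact_mod_cast eN_pos P
  have h1' : 1 / 2 - ε ≤ prob P u v := by
    rw [prob_eq, le_div_iff₀ he]; exact h1
  have h2' : 1 / 2 - ε ≤ prob P v u := by
    rw [prob_eq, le_div_iff₀ he]; exact h2
  unfold balance
  exact (le_min h1' h2').trans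
    (le_ciSup (f := fun p : P × P => min (prob P p.1 p.2) (prob P p.2 p.1))
      (Set.finite_range _).bddAbove (u, v))

end Pool.Agent.Y491.ID
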