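import Mathlib

/-!
# A lower bound for the tails of the binomial distribution, and the inequality of Harris and Kleitman
-/

set_option autoImplicit false

open Finset
open scoped Classical

namespace Pool.Agent.Y491.ID

lemma central_sq (n : ℕ) : n.centralBinom ^ 2 * (2 * n + 1) ≤ 16 ^ n := by
  induction n with
  | zero => simp
  | succ n ih =>
    have h1 := Nat.succ_mul_centralBinom_succ n
    obtain ⟨c, hc⟩ : ∃ c, c = n.centralBinom := ⟨_, rfl⟩
    obtain ⟨c', hc'⟩ : ∃ c', c' = (n + 1).centralBinom := ⟨_, rfl⟩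
    rw [← hc, ← hc'] at h1
    rw [← hc] at ih
    rw [← hc']
    have h2 : (n + 1) ^ 2 * (c' ^ 2 * (2 * (n + 1) + 1)) ≤ (n + 1) ^ 2 * 16 ^ (n + 1) := by
      calc (n + 1) ^ 2 * (c' ^ 2 * (2 * (n + 1) + 1)) = ((n + 1) * c') ^ 2 * (2 * n + 3) := by ring
        _ = (2 * (2 * n + 1) * c) ^ 2 * (2 * n + 3) := by rw [h1]
        _ = 4 * ((2 * n + 1) * (2 * n + 3)) * (c ^ 2 * (2 * n + 1)) := by ring
        _ ≤ 4 * ((2 * n + 1) * (2 * n + 3)) * 16 ^ n := Nat.mul_le_mul_left _ ih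
        _ ≤ 4 * (4 * (n + 1) ^ 2) * 16 ^ n := by
            refine Nat.mul_le_mul_right _ (Nat.mul_le_mul_left _ ?_)
            nlinarith
        _ = (n + 1) ^ 2 * 16 ^ (n + 1) := by ring
    exact Nat.le_of_mul_le_mul_left h2 (by positivity)

lemma choose_sq (m r : ℕ) : (m.choose r) ^ 2 * m ≤ 4 ^ m := by
  have h0 : m.choose r ≤ m.choose (m / 2) := Nat.choose_le_middle r m
  refine (Nat.mul_le_mul_right _ (Nat.pow_le_pow_left h0 2)).trans ?_
  rcases Nat.even_or_odd' m with ⟨k, rfl | rfl⟩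
  · have h1 : 2 * k / 2 = k := by omega
    rw [h1, ← Nat.centralBinom_eq_two_mul_choose]
    calc k.centralBinom ^ 2 * (2 * k) ≤ k.centralBinom ^ 2 * (2 * k + 1) :=
          Nat.mul_le_mul_left _ (by omega)
      _ ≤ 16 ^ k := central_sq k
      _ = 4 ^ (2 * k) := by rw [pow_mul]; norm_num
  · have h1 : (2 * k + 1) / 2 = k := by omega
    rw [h1]
    have h2 : (k + 1).centralBinom = 2 * (2 * k + 1).choose k := by
      rw [Nat.centralBinom_eq_two_mul_choose]
      have h3 : 2 * (k + 1) = (2 * k + 1) + 1 := by ring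
      rw [h3, Nat.choose_succ_succ, Nat.choose_symm_half]
      ring
    have h3 := central_sq (k + 1)
    rw [h2] at h3
    have h4 : 4 * ((2 * k + 1).choose k ^ 2 * (2 * k + 1)) ≤ 4 * 4 ^ (2 * k + 1) := by
      calc 4 * ((2 * k + 1).choose k ^ 2 * (2 * k + 1))
          ≤ 4 * ((2 * k + 1).choose k ^ 2 * (2 * (k + 1) + 1)) :=
            Nat.mul_le_mul_left _ (Nat.mul_le_mul_left _ (by omega))
        _ = (2 * (2 * k + 1).choose k) ^ 2 * (2 * (k + 1) + 1) := by ring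
        _ ≤ 16 ^ (k + 1) := h3
        _ = 4 * 4 ^ (2 * k + 1) := by
            have : (16 : ℕ) = 4 ^ 2 := by norm_num
            rw [this, ← pow_mul, ← pow_succ']
            congr 1
    omega

lemma choose_delta {m δ : ℕ} (h : 4 * δ ^ 2 ≤ m) (r : ℕ) : 2 * (δ * m.choose r) ≤ 2 ^ m := by
  have h1 := choose_sq m r
  have h2 : (2 * (δ * m.choose r)) ^ 2 ≤ (2 ^ m) ^ 2 := by
    calc (2 * (δ * m.choose r)) ^ 2 = (m.choose r) ^ 2 * (4 * δ ^ 2) := by ring
      _ ≤ (m.choose r) ^ 2 * m := Nat.mul_le_mul_left _ h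
      _ ≤ 4 ^ m := h1
      _ = (2 ^ m) ^ 2 := by rw [← pow_mul, mul_comm m 2, pow_mul]; norm_num
  exact le_of_sq_le_sq h2
where
  le_of_sq_le_sq {a b : ℕ} (h : a ^ 2 ≤ b ^ 2) : a ≤ b := (Nat.pow_le_pow_iff_left (by norm_num)).mp h

/-- the lower tail of the binomial distribution -/
lemma binom_tail {ι : Type*} (M : Finset ι) {δ : ℕ} (h : 4 * δ ^ 2 ≤ M.card) :
    2 ^ M.card ≤ 4 * (M.powerset.filter fun S => 2 * S.card + δ ≤ M.card).card := by
  obtain ⟨m, hm⟩ : ∃ m, m = M.card := ⟨_, rfl⟩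
  rw [← hm] at h ⊢
  obtain ⟨lo, hlo⟩ : ∃ lo, lo = M.powerset.filter fun S => 2 * S.card + δ ≤ m := ⟨_, rfl⟩
  obtain ⟨hi, hhi⟩ : ∃ hi, hi = M.powerset.filter fun S => m + δ ≤ 2 * S.card := ⟨_, rfl⟩
  obtain ⟨mid, hmid⟩ : ∃ mid, mid = M.powerset.filter fun S => m < 2 * S.card + δ ∧
    2 * S.card < m + δ := ⟨_, rfl⟩
  have h1 : hi.card ≤ lo.card := by
    refine Finset.card_le_card_of_injOn (fun S => M \ S) ?_ ?_
    · intro S hS
      rw [hhi, mem_coe, mem_filter, mem_powerset] at hS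
      rw [hlo, mem_coe, mem_filter, mem_powerset]
      refine ⟨sdiff_subset, ?_⟩
      rw [card_sdiff_of_subset hS.1]
      have := card_le_card hS.1
      omega
    · intro S hS S' hS' heq
      rw [hhi, mem_coe, mem_filter, mem_powerset] at hS hS'
      have h2 : M \ (M \ S) = M \ (M \ S') := by
        show M \ ((fun S => M \ S) S) = M \ ((fun S => M \ S) S')
        rw [heq]
      rwa [Finset.sdiff_sdiff_eq_self hS.1, Finset.sdiff_sdiff_eq_self hS'.1] at h2
  have h2 : 2 * mid.card ≤ 2 ^ m := by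
    obtain ⟨a, ha⟩ : ∃ a, a = (m - δ) / 2 := ⟨_, rfl⟩
    have hδm : δ ≤ m := by nlinarith
    have h3' : mid ⊆ (Ico (a + 1) (a + 1 + δ)).biUnion fun r => powersetCard r M := by
      intro S hS
      rw [hmid, mem_filter, mem_powerset] at hS
      rw [mem_biUnion]
      refine ⟨S.card, ?_, mem_powersetCard.mpr ⟨hS.1, rfl⟩⟩
      rw [mem_Ico]
      omega
    have h4 : mid.card ≤ ∑ r ∈ Ico (a + 1) (a + 1 + δ), m.choose r := by
      refine (card_le_card h3').trans (card_biUnion_le.trans (le_of_eq ?_))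
      refine sum_congr rfl fun r _ => ?_
      rw [card_powersetCard, ← hm]
    have h5 : ∑ r ∈ Ico (a + 1) (a + 1 + δ), m.choose r ≤ δ * m.choose (m / 2) := by
      refine (sum_le_card_nsmul _ _ (m.choose (m / 2)) fun r _ => Nat.choose_le_middle r m).trans ?_
      rw [Nat.card_Ico, smul_eq_mul]
      refine Nat.mul_le_mul_right _ (by omega)
    have h6 := choose_delta h (m / 2)
    omega
  have h3 : 2 ^ m ≤ lo.card + hi.card + mid.card := by
    have h30 : M.powerset.card = 2 ^ m := by rw [card_powerset, ← hm]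
    rw [← h30]
    have h4 : M.powerset ⊆ (lo ∪ hi) ∪ mid := by
      intro S hS
      rw [mem_union, mem_union, hlo, hhi, hmid, mem_filter, mem_filter, mem_filter]
      by_cases c1 : 2 * S.card + δ ≤ m
      · exact Or.inl (Or.inl ⟨hS, c1⟩)
      · by_cases c2 : m + δ ≤ 2 * S.card
        · exact Or.inl (Or.inr ⟨hS, c2⟩)
        · exact Or.inr ⟨hS, by omega, by omega⟩
    refine (card_le_card h4).trans ((card_union_le _ _).trans ?_)
    have := card_union_le lo hi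
    omega
  rw [← hlo]
  omega

/-- Harris–Kleitman for a down-closed family of subsets of `M` and the family of the small sets -/
lemma harris {ι : Type*} [DecidableEq ι] (M : Finset ι) (𝒜 : Finset (Finset ι))
    (hs : ∀ S ∈ 𝒜, S ⊆ M) (hl : ∀ S ∈ 𝒜, ∀ S', S' ⊆ S → S' ∈ 𝒜) {δ : ℕ}
    (h : 4 * δ ^ 2 ≤ M.card) :
    𝒜.card ≤ 4 * (𝒜.filter fun S => 2 * S.card + δ ≤ M.card).card := by
  obtain ⟨ℬ, hℬ⟩ : ∃ ℬ, ℬ = M.powerset.filter fun S => 2 * S.card + δ ≤ M.card := ⟨_, rfl⟩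
  have h1 := binom_tail M h
  have h2 : 𝒜.card * ℬ.card ≤ 2 ^ M.card * (𝒜 ∩ ℬ).card := by
    refine IsLowerSet.le_card_inter_finset' ?_ ?_ hs ?_
    · intro S S' hSS' hS
      exact hl S hS S' hSS'
    · intro S S' hSS' hS
      rw [hℬ, mem_coe, mem_filter, mem_powerset] at hS ⊢
      have := card_le_card hSS'
      exact ⟨Finset.Subset.trans hSS' hS.1, by omega⟩
    · intro S hS
      rw [hℬ, mem_filter, mem_powerset] at hS
      exact hS.1
  have h3 : 𝒜 ∩ ℬ ⊆ 𝒜.filter fun S => 2 * S.card + δ ≤ M.card := by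
    intro S hS
    obtain ⟨h4, h5⟩ := mem_inter.mp hS
    rw [hℬ, mem_filter] at h5
    exact mem_filter.mpr ⟨h4, h5.2⟩
  have h4 := card_le_card h3
  have h1' : 2 ^ M.card ≤ 4 * ℬ.card := by
    rw [hℬ]
    convert h1
  have h5 : 2 ^ M.card * 𝒜.card ≤ 2 ^ M.card * (4 * (𝒜 ∩ ℬ).card) := by
    calc 2 ^ M.card * 𝒜.card ≤ 4 * ℬ.card * 𝒜.card := Nat.mul_le_mul_right _ h1'
      _ = 4 * (𝒜.card * ℬ.card) := by ring
      _ ≤ 4 * (2 ^ M.card * (𝒜 ∩ ℬ).card) := Nat.mul_le_mul_left _ h2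
      _ = 2 ^ M.card * (4 * (𝒜 ∩ ℬ).card) := by ring
  have h6 := Nat.le_of_mul_le_mul_left h5 (by positivity)
  omega

end Pool.Agent.Y491.ID
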