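import Pool.Agent.Y491.ID.Word

/-!
# Discordant pairs

`idx` enumerates `P`, and `P (T z < T x) ≤ K / (1 + idx z - idx x) ^ 4` for `idx x < idx z`.
-/

set_option autoImplicit false

open Finset
open scoped Classical

namespace Pool.Agent.Y491.ID

variable {P : Type} [Fintype P] {r : P → P → Prop}

/-- an enumeration such that far apart elements are rarely in the wrong order -/
structure Dis (r : P → P → Prop) (idx : P → ℕ) (K : ℕ) : Prop where
  inj : Function.Injective idx
  lt : ∀ x, idx x < Fintype.card P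
  pos : 1 ≤ K
  ne : (LE r).Nonempty
  dis : ∀ x z, idx x < idx z → (((LE r).filter fun T => T z < T x).card : ℝ) ≤
    K / (1 + ((idx z : ℝ) - idx x)) ^ 4 * (LE r).card

lemma sum_inv_sq' (n : ℕ) : ∑ j ∈ range n, (1 : ℝ) / (1 + (j : ℝ)) ^ 2 ≤ 2 := by
  have h : ∀ n : ℕ, ∑ j ∈ range (n + 1), (1 : ℝ) / (1 + (j : ℝ)) ^ 2 ≤ 2 - 1 / ((n : ℝ) + 1) := by
    intro n
    induction n with
    | zero => norm_num
    | succ n ih =>
      rw [sum_range_succ]
      have h : (1 : ℝ) / (1 + ((n + 1 : ℕ) : ℝ)) ^ 2 ≤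
          1 / ((n : ℝ) + 1) - 1 / (((n + 1 : ℕ) : ℝ) + 1) := by
        push_cast
        have h1 : (0 : ℝ) < (n : ℝ) + 1 := by positivity
        rw [div_sub_div _ _ (by positivity) (by positivity), div_le_div_iff₀ (by positivity)
          (by positivity)]
        nlinarith
      linarith
  rcases Nat.eq_zero_or_pos n with rfl | hn
  · simp
  · obtain ⟨m, rfl⟩ := Nat.exists_eq_succ_of_ne_zero hn.ne'
    have h1 := h m
    have h2 : (0 : ℝ) ≤ 1 / ((m : ℝ) + 1) := by positivity
    have h3 : ∑ j ∈ range (m + 1), (1 : ℝ) / (1 + (j : ℝ)) ^ 2 ≤ 2 := by linarith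
    exact h3

lemma sum_inj_le {β : Type*} (s : Finset β) (f : β → ℕ) (hf : Set.InjOn f s) :
    ∑ x ∈ s, (1 : ℝ) / (1 + (f x : ℝ)) ^ 2 ≤ 2 := by
  have h1 : ∑ x ∈ s, (1 : ℝ) / (1 + (f x : ℝ)) ^ 2 =
      ∑ j ∈ s.image f, (1 : ℝ) / (1 + (j : ℝ)) ^ 2 :=
    (sum_image (f := fun j : ℕ => (1 : ℝ) / (1 + (j : ℝ)) ^ 2) hf).symm
  rw [h1]
  refine le_trans ?_ (sum_inv_sq' ((s.image f).sup id + 1))
  refine sum_le_sum_of_subset_of_nonneg ?_ fun _ _ _ => by positivity
  intro j hj
  rw [mem_range]
  have := le_sup (f := id) hj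
  simp only [id] at this
  omega

lemma count_lt {f : P → ℕ} (hinj : Function.Injective f) (hlt : ∀ x, f x < Fintype.card P) {t : ℕ}
    (ht : t ≤ Fintype.card P) : (univ.filter fun x => f x < t).card = t := by
  have h1 : univ.image f = range (Fintype.card P) := by
    refine eq_of_subset_of_card_le ?_ ?_
    · intro s hs
      obtain ⟨x, _, rfl⟩ := mem_image.mp hs
      exact mem_range.mpr (hlt x)
    · rw [card_image_of_injective _ hinj, card_range, card_univ]
  have h2 : (univ.filter fun x => f x < t).image f = range t := by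
    ext s
    rw [mem_image, mem_range]
    constructor
    · rintro ⟨x, hx, rfl⟩
      exact (mem_filter.mp hx).2
    · intro hs
      have h3 : s ∈ univ.image f := by
        rw [h1, mem_range]
        omega
      obtain ⟨x, _, rfl⟩ := mem_image.mp h3
      exact ⟨x, mem_filter.mpr ⟨mem_univ _, hs⟩, rfl⟩
  rw [← card_image_of_injective _ hinj, h2, card_range]

lemma exists_pos {f : P → ℕ} (hinj : Function.Injective f) (hlt : ∀ x, f x < Fintype.card P) {t : ℕ}
    (ht : t < Fintype.card P) : ∃ x, f x = t := by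
  have h1 : univ.image f = range (Fintype.card P) := by
    refine eq_of_subset_of_card_le ?_ ?_
    · intro s hs
      obtain ⟨x, _, rfl⟩ := mem_image.mp hs
      exact mem_range.mpr (hlt x)
    · rw [card_image_of_injective _ hinj, card_range, card_univ]
  have h2 : t ∈ univ.image f := by rw [h1, mem_range]; exact ht
  obtain ⟨x, _, h⟩ := mem_image.mp h2
  exact ⟨x, h⟩

/-- the discordant pairs across the cut `s` -/
noncomputable def cross (idx : P → ℕ) (s : ℕ) (T : P → ℕ) : ℕ :=
  ((univ ×ˢ univ).filter fun p : P × P => (idx p.1 < s ∧ s ≤ idx p.2) ∧ T p.2 < T p.1).card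

/-- the elements discordant with `b` -/
noncomputable def disc (idx : P → ℕ) (b : P) (T : P → ℕ) : ℕ :=
  (univ.filter fun x => (idx x < idx b ∧ T b < T x) ∨ (idx b < idx x ∧ T x < T b)).card

/-- the number of elements that moved across the cut `s` -/
noncomputable def cc (idx : P → ℕ) (s : ℕ) (T : P → ℕ) : ℕ :=
  (univ.filter fun x => T x < s ∧ s ≤ idx x).card

variable {idx : P → ℕ} {K : ℕ}

lemma sum_card_filter {β γ : Type*} (s : Finset β) (t : Finset γ) (p : β → γ → Prop)
    [∀ a c, Decidable (p a c)] :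
    ∑ a ∈ s, (t.filter fun c => p a c).card = ∑ c ∈ t, (s.filter fun a => p a c).card := by
  simp only [card_filter]
  exact sum_comm

/-- few discordant pairs across a cut -/
lemma sum_cross (h : Dis r idx K) (s : ℕ) :
    ∑ T ∈ LE r, cross idx s T ≤ 4 * K * (LE r).card := by
  have h0 : ∑ T ∈ LE r, cross idx s T =
      ∑ p ∈ (univ ×ˢ univ).filter (fun p : P × P => idx p.1 < s ∧ s ≤ idx p.2),
        ((LE r).filter fun T => T p.2 < T p.1).card := by
    unfold cross
    rw [← sum_card_filter _ _ fun (T : P → ℕ) (p : P × P) => T p.2 < T p.1]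
    refine sum_congr rfl fun T _ => ?_
    rw [filter_filter]
  have h1 : (∑ T ∈ LE r, cross idx s T : ℝ) ≤ 4 * K * (LE r).card := by
    have h2 : (∑ T ∈ LE r, cross idx s T : ℝ) =
      ∑ p ∈ (univ ×ˢ univ).filter (fun p : P × P => idx p.1 < s ∧ s ≤ idx p.2),
        (((LE r).filter fun T => T p.2 < T p.1).card : ℝ) := by exact_mod_cast h0
    rw [h2]
    have hK : (0 : ℝ) ≤ K := by positivity
    have hN : (0 : ℝ) ≤ (LE r).card := by positivity
    have h3 : ∀ p ∈ (univ ×ˢ univ).filter (fun p : P × P => idx p.1 < s ∧ s ≤ idx p.2),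
        (((LE r).filter fun T => T p.2 < T p.1).card : ℝ) ≤
        K * (LE r).card * ((1 / (1 + ((s - idx p.1 : ℕ) : ℝ)) ^ 2) *
          (1 / (1 + ((idx p.2 - s : ℕ) : ℝ)) ^ 2)) := by
      intro p hp
      obtain ⟨hp1, hp2⟩ := (mem_filter.mp hp).2
      refine (h.dis p.1 p.2 (by omega)).trans ?_
      rw [Nat.cast_sub hp1.le, Nat.cast_sub hp2]
      obtain ⟨a, ha⟩ : ∃ a : ℝ, a = (s : ℝ) - idx p.1 := ⟨_, rfl⟩
      obtain ⟨c, hc⟩ : ∃ c : ℝ, c = (idx p.2 : ℝ) - s := ⟨_, rfl⟩
      have ha0 : 0 ≤ a := by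
        rw [ha]
        have : (idx p.1 : ℝ) ≤ s := by exact_mod_cast hp1.le
        linarith
      have hc0 : 0 ≤ c := by
        rw [hc]
        have : (s : ℝ) ≤ idx p.2 := by exact_mod_cast hp2
        linarith
      rw [← ha, ← hc]
      have h4 : (idx p.2 : ℝ) - idx p.1 = a + c := by rw [ha, hc]; ring
      rw [h4]
      have h5 : (1 + a) ^ 2 * (1 + c) ^ 2 ≤ (1 + (a + c)) ^ 4 := by
        have h6 : (1 + a) * (1 + c) ≤ (1 + (a + c)) ^ 2 := by nlinarith [mul_nonneg ha0 hc0]
        calc (1 + a) ^ 2 * (1 + c) ^ 2 = ((1 + a) * (1 + c)) ^ 2 := by ring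
          _ ≤ ((1 + (a + c)) ^ 2) ^ 2 := by gcongr
          _ = _ := by ring
      have h7 : (K : ℝ) / (1 + (a + c)) ^ 4 ≤ K * (1 / ((1 + a) ^ 2 * (1 + c) ^ 2)) := by
        rw [mul_one_div]
        exact div_le_div_of_nonneg_left hK (by positivity) h5
      calc (K : ℝ) / (1 + (a + c)) ^ 4 * (LE r).card
          ≤ K * (1 / ((1 + a) ^ 2 * (1 + c) ^ 2)) * (LE r).card :=
            mul_le_mul_of_nonneg_right h7 hN
        _ = _ := by
          rw [one_div_mul_one_div]
          ring
    refine (sum_le_sum h3).trans ?_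
    rw [← mul_sum]
    have h4 : ∑ p ∈ (univ ×ˢ univ).filter (fun p : P × P => idx p.1 < s ∧ s ≤ idx p.2),
        ((1 / (1 + ((s - idx p.1 : ℕ) : ℝ)) ^ 2) * (1 / (1 + ((idx p.2 - s : ℕ) : ℝ)) ^ 2)) =
        (∑ x ∈ univ.filter (fun x : P => idx x < s), 1 / (1 + ((s - idx x : ℕ) : ℝ)) ^ 2) *
        (∑ x ∈ univ.filter (fun x : P => s ≤ idx x), 1 / (1 + ((idx x - s : ℕ) : ℝ)) ^ 2) := by
      rw [sum_mul_sum, ← sum_product', ← filter_product]
    rw [h4]
    have h5 : ∑ x ∈ univ.filter (fun x : P => idx x < s), 1 / (1 + ((s - idx x : ℕ) : ℝ)) ^ 2 ≤ 2 := by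
      refine sum_inj_le _ (fun x => s - idx x) ?_
      intro x hx y hy hxy
      have h6 := (mem_filter.mp hx).2
      have h7 := (mem_filter.mp hy).2
      simp only at hxy
      exact h.inj (by omega)
    have h6 : ∑ x ∈ univ.filter (fun x : P => s ≤ idx x), 1 / (1 + ((idx x - s : ℕ) : ℝ)) ^ 2 ≤ 2 := by
      refine sum_inj_le _ (fun x => idx x - s) ?_
      intro x hx y hy hxy
      have h6 := (mem_filter.mp hx).2
      have h7 := (mem_filter.mp hy).2
      simp only at hxy
      exact h.inj (by omega)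
    have h7 : (0 : ℝ) ≤ ∑ x ∈ univ.filter (fun x : P => s ≤ idx x),
      1 / (1 + ((idx x - s : ℕ) : ℝ)) ^ 2 := sum_nonneg fun _ _ => by positivity
    have h8 : (∑ x ∈ univ.filter (fun x : P => idx x < s), 1 / (1 + ((s - idx x : ℕ) : ℝ)) ^ 2) *
        (∑ x ∈ univ.filter (fun x : P => s ≤ idx x), 1 / (1 + ((idx x - s : ℕ) : ℝ)) ^ 2) ≤ 2 * 2 :=
      mul_le_mul h5 h6 h7 (by norm_num)
    have h9 : (0 : ℝ) ≤ K * (LE r).card := by positivity
    have h10 := mul_le_mul_of_nonneg_left h8 h9
    linarith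
  exact_mod_cast h1

/-- few elements are discordant with a given one -/
lemma sum_disc (h : Dis r idx K) (b : P) :
    ∑ T ∈ LE r, disc idx b T ≤ 4 * K * (LE r).card := by
  have hN : (0 : ℝ) ≤ (LE r).card := by positivity
  have hK : (0 : ℝ) ≤ K := by positivity
  have h0 : ∑ T ∈ LE r, disc idx b T = ∑ x : P, ((LE r).filter fun T =>
      (idx x < idx b ∧ T b < T x) ∨ (idx b < idx x ∧ T x < T b)).card := by
    unfold disc
    exact sum_card_filter _ _ fun (T : P → ℕ) (x : P) =>
      (idx x < idx b ∧ T b < T x) ∨ (idx b < idx x ∧ T x < T b)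
  have h1 : (∑ T ∈ LE r, disc idx b T : ℝ) ≤ 4 * K * (LE r).card := by
    have h2 : (∑ T ∈ LE r, disc idx b T : ℝ) = ∑ x : P, (((LE r).filter fun T =>
      (idx x < idx b ∧ T b < T x) ∨ (idx b < idx x ∧ T x < T b)).card : ℝ) := by exact_mod_cast h0
    rw [h2]
    have h3 : ∀ x ∈ (univ : Finset P), (((LE r).filter fun T =>
        (idx x < idx b ∧ T b < T x) ∨ (idx b < idx x ∧ T x < T b)).card : ℝ) ≤
        (if idx x < idx b then K * (LE r).card * (1 / (1 + ((idx b - idx x : ℕ) : ℝ)) ^ 2) else 0) +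
        (if idx b < idx x then K * (LE r).card * (1 / (1 + ((idx x - idx b : ℕ) : ℝ)) ^ 2) else 0) := by
      intro x _
      have key : ∀ d : ℝ, 0 ≤ d → (K : ℝ) / (1 + d) ^ 4 * (LE r).card ≤
          K * (LE r).card * (1 / (1 + d) ^ 2) := by
        intro d hd
        have h4 : (1 + d) ^ 2 ≤ (1 + d) ^ 4 := pow_le_pow_right₀ (by linarith) (by norm_num)
        have h5 : (K : ℝ) / (1 + d) ^ 4 ≤ K * (1 / (1 + d) ^ 2) := by
          rw [mul_one_div]
          exact div_le_div_of_nonneg_left hK (by positivity) h4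
        calc (K : ℝ) / (1 + d) ^ 4 * (LE r).card ≤ K * (1 / (1 + d) ^ 2) * (LE r).card :=
              mul_le_mul_of_nonneg_right h5 hN
          _ = _ := by ring
      rcases lt_trichotomy (idx x) (idx b) with hlt | heq | hgt
      · rw [if_pos hlt, if_neg (by omega), add_zero]
        refine le_trans ?_ ((h.dis x b hlt).trans ?_)
        · refine Nat.cast_le.mpr (card_le_card fun T hT => ?_)
          obtain ⟨h4, h5⟩ := mem_filter.mp hT
          refine mem_filter.mpr ⟨h4, ?_⟩
          rcases h5 with h5 | h5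
          · exact h5.2
          · omega
        · rw [Nat.cast_sub hlt.le]
          refine key _ ?_
          have : (idx x : ℝ) ≤ idx b := by exact_mod_cast hlt.le
          linarith
      · rw [if_neg (by omega), if_neg (by omega), add_zero]
        have : ((LE r).filter fun T =>
            (idx x < idx b ∧ T b < T x) ∨ (idx b < idx x ∧ T x < T b)) = ∅ := by
          rw [filter_eq_empty_iff]
          intro T _
          omega
        rw [this]
        simp
      · rw [if_neg (by omega), if_pos hgt, zero_add]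
        refine le_trans ?_ ((h.dis b x hgt).trans ?_)
        · refine Nat.cast_le.mpr (card_le_card fun T hT => ?_)
          obtain ⟨h4, h5⟩ := mem_filter.mp hT
          refine mem_filter.mpr ⟨h4, ?_⟩
          rcases h5 with h5 | h5
          · omega
          · exact h5.2
        · rw [Nat.cast_sub hgt.le]
          refine key _ ?_
          have : (idx b : ℝ) ≤ idx x := by exact_mod_cast hgt.le
          linarith
    refine (sum_le_sum h3).trans ?_
    rw [sum_add_distrib, ← sum_filter, ← sum_filter, ← mul_sum, ← mul_sum]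
    have h5 : ∑ x ∈ univ.filter (fun x : P => idx x < idx b),
        1 / (1 + ((idx b - idx x : ℕ) : ℝ)) ^ 2 ≤ 2 := by
      refine sum_inj_le _ (fun x => idx b - idx x) ?_
      intro x hx y hy hxy
      have h6 := (mem_filter.mp hx).2
      have h7 := (mem_filter.mp hy).2
      simp only at hxy
      exact h.inj (by omega)
    have h6 : ∑ x ∈ univ.filter (fun x : P => idx b < idx x),
        1 / (1 + ((idx x - idx b : ℕ) : ℝ)) ^ 2 ≤ 2 := by
      refine sum_inj_le _ (fun x => idx x - idx b) ?_
      intro x hx y hy hxy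
      have h6 := (mem_filter.mp hx).2
      have h7 := (mem_filter.mp hy).2
      simp only at hxy
      exact h.inj (by omega)
    have h9 : (0 : ℝ) ≤ K * (LE r).card := by positivity
    have h10 := mul_le_mul_of_nonneg_left h5 h9
    have h11 := mul_le_mul_of_nonneg_left h6 h9
    linarith
  exact_mod_cast h1

/-- Markov's inequality -/
lemma markov {β : Type*} (s : Finset β) (f : β → ℕ) (w : ℕ) :
    w * (s.filter fun T => w ≤ f T).card ≤ ∑ T ∈ s, f T := by
  calc w * (s.filter fun T => w ≤ f T).card = ∑ _T ∈ s.filter (fun T => w ≤ f T), w := by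
        rw [sum_const, smul_eq_mul, mul_comm]
    _ ≤ ∑ T ∈ s.filter (fun T => w ≤ f T), f T := sum_le_sum fun T hT => (mem_filter.mp hT).2
    _ ≤ ∑ T ∈ s, f T := sum_le_sum_of_subset (filter_subset _ _)

lemma cross_tail (h : Dis r idx K) (s w : ℕ) :
    w * ((LE r).filter fun T => w ≤ cross idx s T).card ≤ 4 * K * (LE r).card :=
  (markov _ _ _).trans (sum_cross h s)

/-- an element that is much too late gives many discordant pairs -/
lemma cross_of_late (h : Dis r idx K) {T : P → ℕ} (hT : T ∈ LE r) {s w : ℕ} {y : P}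
    (hy : idx y < s) (hTy : s + w ≤ T y + 1) : w ≤ cross idx s T := by
  obtain ⟨hT1, hT2, _⟩ := mem_LE.mp hT
  have hs : s ≤ Fintype.card P := by
    have := hT1 y
    omega
  have h1 := count_lt hT2 hT1 (hT1 y).le
  have h2 := count_lt h.inj h.lt hs
  have h3 : (univ.filter fun x => T x < T y) ⊆
      (univ.filter fun x => s ≤ idx x ∧ T x < T y) ∪ ((univ.filter fun x => idx x < s).erase y) := by
    intro x hx
    have hx' := (mem_filter.mp hx).2
    rw [mem_union, mem_filter, mem_erase, mem_filter]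
    by_cases c : s ≤ idx x
    · exact Or.inl ⟨mem_univ _, c, hx'⟩
    · refine Or.inr ⟨?_, mem_univ _, by omega⟩
      rintro rfl
      omega
  have h4 := (card_le_card h3).trans (card_union_le _ _)
  have hmem : y ∈ univ.filter fun x => idx x < s := by
    rw [mem_filter]
    exact ⟨mem_univ _, hy⟩
  rw [h1, card_erase_of_mem hmem, h2] at h4
  have h5 : (univ.filter fun x => s ≤ idx x ∧ T x < T y).card ≤ cross idx s T := by
    unfold cross
    refine card_le_card_of_injOn (fun x => (y, x)) ?_ ?_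
    · intro x hx
      rw [mem_coe] at hx
      obtain ⟨_, h6, h7⟩ := mem_filter.mp hx
      rw [mem_coe, mem_filter]
      exact ⟨mem_product.mpr ⟨mem_univ _, mem_univ _⟩, ⟨hy, h6⟩, h7⟩
    · intro x _ x' _ hxx
      exact (Prod.ext_iff.mp hxx).2
  omega

/-- an element that is much too early gives many discordant pairs -/
lemma cross_of_early (h : Dis r idx K) {T : P → ℕ} (hT : T ∈ LE r) {s w : ℕ} {x : P}
    (hx : s ≤ idx x) (hTx : T x + w ≤ s) : w ≤ cross idx s T := by
  obtain ⟨hT1, hT2, _⟩ := mem_LE.mp hT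
  have hs : s ≤ Fintype.card P := by
    have := h.lt x
    omega
  have h1 := count_lt hT2 hT1 (t := T x + 1) (hT1 x)
  have h2 := count_lt h.inj h.lt hs
  have h3 : (univ.filter fun y => idx y < s) ⊆
      (univ.filter fun y => idx y < s ∧ T x < T y) ∪ ((univ.filter fun y => T y < T x + 1).erase x) := by
    intro y hy
    have hy' := (mem_filter.mp hy).2
    rw [mem_union, mem_filter, mem_erase, mem_filter]
    by_cases c : T x < T y
    · exact Or.inl ⟨mem_univ _, hy', c⟩
    · refine Or.inr ⟨?_, mem_univ _, by omega⟩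
      rintro rfl
      omega
  have h4 := (card_le_card h3).trans (card_union_le _ _)
  have hmem : x ∈ univ.filter fun y => T y < T x + 1 := by
    rw [mem_filter]
    exact ⟨mem_univ _, by omega⟩
  rw [h2, card_erase_of_mem hmem, h1] at h4
  have h5 : (univ.filter fun y => idx y < s ∧ T x < T y).card ≤ cross idx s T := by
    unfold cross
    refine card_le_card_of_injOn (fun y => (y, x)) ?_ ?_
    · intro y hy
      rw [mem_coe] at hy
      obtain ⟨_, h6, h7⟩ := mem_filter.mp hy
      rw [mem_coe, mem_filter]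
      exact ⟨mem_product.mpr ⟨mem_univ _, mem_univ _⟩, ⟨h6, hx⟩, h7⟩
    · intro y _ y' _ hyy
      exact (Prod.ext_iff.mp hyy).1
  omega

lemma cc_eq (h : Dis r idx K) {T : P → ℕ} (hT : T ∈ LE r) {s : ℕ} (hs : s ≤ Fintype.card P) :
    (univ.filter fun y => idx y < s ∧ s ≤ T y).card = cc idx s T := by
  obtain ⟨hT1, hT2, _⟩ := mem_LE.mp hT
  have h1 := count_lt hT2 hT1 hs
  have h2 := count_lt h.inj h.lt hs
  have h3 : (univ.filter fun x => T x < s).card =
      (univ.filter fun x => T x < s ∧ s ≤ idx x).card +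
        (univ.filter fun x => T x < s ∧ idx x < s).card := by
    rw [← card_union_of_disjoint]
    · congr 1
      ext x
      rw [mem_union, mem_filter, mem_filter, mem_filter]
      have := mem_univ x
      have := le_or_gt s (idx x)
      tauto
    · rw [disjoint_left]
      intro x h4 h5
      have := (mem_filter.mp h4).2
      have := (mem_filter.mp h5).2
      omega
  have h4 : (univ.filter fun x => idx x < s).card =
      (univ.filter fun x => idx x < s ∧ s ≤ T x).card +
        (univ.filter fun x => T x < s ∧ idx x < s).card := by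
    rw [← card_union_of_disjoint]
    · congr 1
      ext x
      rw [mem_union, mem_filter, mem_filter, mem_filter]
      have := mem_univ x
      have := le_or_gt s (T x)
      tauto
    · rw [disjoint_left]
      intro x h4 h5
      have := (mem_filter.mp h4).2
      have := (mem_filter.mp h5).2
      omega
  unfold cc
  omega

lemma cc_sq (h : Dis r idx K) {T : P → ℕ} (hT : T ∈ LE r) {s : ℕ} (hs : s ≤ Fintype.card P) :
    cc idx s T ^ 2 ≤ cross idx s T := by
  rw [sq]
  have h1 := cc_eq h hT hs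
  calc cc idx s T * cc idx s T
      = (univ.filter fun y => idx y < s ∧ s ≤ T y).card *
        (univ.filter fun x => T x < s ∧ s ≤ idx x).card := by rw [h1]; rfl
    _ = ((univ.filter fun y => idx y < s ∧ s ≤ T y) ×ˢ
        (univ.filter fun x => T x < s ∧ s ≤ idx x)).card := (card_product _ _).symm
    _ ≤ cross idx s T := by
        unfold cross
        refine card_le_card fun p hp => ?_
        obtain ⟨h2, h3⟩ := mem_product.mp hp
        have h4 := (mem_filter.mp h2).2
        have h5 := (mem_filter.mp h3).2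
        exact mem_filter.mpr ⟨mem_product.mpr ⟨mem_univ _, mem_univ _⟩, ⟨h4.1, h5.2⟩, by omega⟩

lemma cc_tail (h : Dis r idx K) {s : ℕ} (hs : s ≤ Fintype.card P) (w : ℕ) :
    w ^ 2 * ((LE r).filter fun T => w ≤ cc idx s T).card ≤ 4 * K * (LE r).card := by
  refine (Nat.mul_le_mul_left _ (card_le_card ?_)).trans (cross_tail h s (w ^ 2))
  intro T hT
  obtain ⟨h1, h2⟩ := mem_filter.mp hT
  exact mem_filter.mpr ⟨h1, (Nat.pow_le_pow_left h2 2).trans (cc_sq h h1 hs)⟩

end Pool.Agent.Y491.ID
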