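import Pool.Agent.Y491.ID.Disc

/-!
# Long runs of letters
-/

set_option autoImplicit false
set_option linter.unusedSectionVars false

open Finset
open scoped Classical

namespace Pool.Agent.Y491.ID

variable {P : Type} [Fintype P] {r : P → P → Prop}

/-- the `k` elements after `b` are in `A` -/
def Run (A : Finset P) (b : P) (k : ℕ) (T : P → ℕ) : Prop :=
  ∀ i, 1 ≤ i → i ≤ k → T b + i ∈ A.image T

/-- move `b` by `k` places -/
noncomputable def shift (b : P) (k : ℕ) (T : P → ℕ) (x : P) : ℕ :=
  if x = b then T b + k else if T b < T x ∧ T x ≤ T b + k then T x - 1 else T x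

lemma mem_of_run {A : Finset P} {b : P} {k : ℕ} {T : P → ℕ} (hinj : Function.Injective T)
    (hrun : Run A b k T) {x : P} (h1 : T b < T x) (h2 : T x ≤ T b + k) : x ∈ A := by
  have h3 := hrun (T x - T b) (by omega) (by omega)
  have h4 : T b + (T x - T b) = T x := by omega
  rw [h4, mem_image] at h3
  obtain ⟨a, ha, hax⟩ := h3
  exact hinj hax ▸ ha

lemma shift_mem {A : Finset P} (hA : ∀ x y, r x y → y ∈ A → x ∈ A) {b : P} (hb : b ∉ A) {k : ℕ}
    {T : P → ℕ} (hT : T ∈ LE r) (hrun : Run A b k T) : shift b k T ∈ LE r := by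
  obtain ⟨hT1, hT2, hT3⟩ := mem_LE.mp hT
  have hne : ∀ x, x ≠ b → T x ≠ T b := fun x hx h => hx (hT2 h)
  have hk : T b + k < Fintype.card P := by
    rcases Nat.eq_zero_or_pos k with rfl | hk
    · exact hT1 b
    · exact mem_range.mp (image_sub hT (hrun k hk le_rfl))
  refine mem_LE.mpr ⟨fun x => ?_, fun x y hxy => ?_, fun x y hxy => ?_⟩
  · unfold shift
    have := hT1 x
    split_ifs <;> omega
  · by_contra hcon
    unfold shift at hxy
    have h1 : T x ≠ T y := fun h => hcon (hT2 h)
    by_cases hx : x = b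
    · by_cases hy : y = b
      · exact hcon (hx.trans hy.symm)
      · rw [if_pos hx, if_neg hy] at hxy
        have := hne y hy
        split_ifs at hxy <;> omega
    · by_cases hy : y = b
      · rw [if_neg hx, if_pos hy] at hxy
        have := hne x hx
        split_ifs at hxy <;> omega
      · rw [if_neg hx, if_neg hy] at hxy
        have := hne x hx
        have := hne y hy
        split_ifs at hxy <;> omega
  · have h0 := hT3 x y hxy
    unfold shift
    by_cases hx : x = b
    · have hy : y ≠ b := by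
        rintro rfl
        rw [hx] at h0
        omega
      rw [if_pos hx, if_neg hy]
      have h1 : ¬ (T b < T y ∧ T y ≤ T b + k) := by
        rintro ⟨h1, h2⟩
        exact hb (hx ▸ hA x y hxy (mem_of_run hT2 hrun h1 h2))
      rw [if_neg h1]
      rw [hx] at h0
      omega
    · by_cases hy : y = b
      · rw [if_neg hx, if_pos hy]
        rw [hy] at h0
        split_ifs <;> omega
      · rw [if_neg hx, if_neg hy]
        have := hne x hx
        have := hne y hy
        split_ifs <;> omega

lemma shift_injOn {A : Finset P} {b : P} {k : ℕ} :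
    Set.InjOn (shift b k) (((LE r).filter fun T => Run A b k T : Finset (P → ℕ)) : Set (P → ℕ)) := by
  intro T hT T' hT' heq
  have h1 := mem_LE.mp (mem_filter.mp (mem_coe.mp hT)).1
  have h1' := mem_LE.mp (mem_filter.mp (mem_coe.mp hT')).1
  have h2 : T b = T' b := by
    have h3 := congrFun heq b
    unfold shift at h3
    rw [if_pos rfl, if_pos rfl] at h3
    omega
  funext x
  by_cases hx : x = b
  · rw [hx]; exact h2
  · have h3 := congrFun heq x
    have h4 : T x ≠ T b := fun h => hx (h1.2.1 h)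
    have h5 : T' x ≠ T' b := fun h => hx (h1'.2.1 h)
    unfold shift at h3
    rw [if_neg hx, if_neg hx] at h3
    split_ifs at h3 <;> omega

variable {idx : P → ℕ} {K : ℕ}

lemma disc_shift (hidx : Function.Injective idx) {A : Finset P} {b : P} {k : ℕ}
    {T : P → ℕ} (hT : T ∈ LE r) (hrun : Run A b k T) :
    k ≤ disc idx b T + disc idx b (shift b k T) := by
  obtain ⟨hT1, hT2, hT3⟩ := mem_LE.mp hT
  have h1 : k ≤ (univ.filter fun x => T b < T x ∧ T x ≤ T b + k).card := by
    have h2 : Ico (T b + 1) (T b + 1 + k) ⊆ (univ.filter fun x => T b < T x ∧ T x ≤ T b + k).image T := by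
      intro s hs
      rw [mem_Ico] at hs
      have h3 := hrun (s - T b) (by omega) (by omega)
      have h4 : T b + (s - T b) = s := by omega
      rw [h4, mem_image] at h3
      obtain ⟨a, ha, rfl⟩ := h3
      exact mem_image.mpr ⟨a, mem_filter.mpr ⟨mem_univ _, by omega, by omega⟩, rfl⟩
    have h3 := (card_le_card h2).trans card_image_le
    rw [Nat.card_Ico] at h3
    omega
  refine h1.trans ((card_le_card ?_).trans (card_union_le _ _))
  intro x hx
  obtain ⟨h2, h3⟩ := (mem_filter.mp hx).2
  rw [mem_union, mem_filter, mem_filter]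
  have hxb : x ≠ b := by
    rintro rfl
    omega
  have h4 : idx x ≠ idx b := fun h => hxb (hidx h)
  rcases lt_or_gt_of_ne h4 with h5 | h5
  · exact Or.inl ⟨mem_univ _, Or.inl ⟨h5, h2⟩⟩
  · refine Or.inr ⟨mem_univ _, Or.inr ⟨h5, ?_⟩⟩
    unfold shift
    rw [if_neg hxb, if_pos ⟨h2, h3⟩, if_pos rfl]
    omega

/-- long runs after a given element are rare -/
lemma run_tail (h : Dis r idx K) {A : Finset P} (hA : ∀ x y, r x y → y ∈ A → x ∈ A) {b : P}
    (hb : b ∉ A) (k : ℕ) :
    k * ((LE r).filter fun T => Run A b k T).card ≤ 8 * K * (LE r).card := by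
  obtain ⟨R, hR⟩ : ∃ R, R = (LE r).filter fun T => Run A b k T := ⟨_, rfl⟩
  rw [← hR]
  have hRm : ∀ T ∈ R, T ∈ LE r ∧ Run A b k T := by
    intro T hT
    rw [hR] at hT
    exact mem_filter.mp hT
  have h1 : k * R.card ≤ ∑ T ∈ R, (disc idx b T + disc idx b (shift b k T)) := by
    rw [mul_comm, ← smul_eq_mul, ← sum_const]
    exact sum_le_sum fun T hT => disc_shift h.inj (hRm T hT).1 (hRm T hT).2
  rw [sum_add_distrib] at h1
  have h2 : ∑ T ∈ R, disc idx b T ≤ ∑ T ∈ LE r, disc idx b T :=
    sum_le_sum_of_subset fun T hT => (hRm T hT).1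
  have h3 : ∑ T ∈ R, disc idx b (shift b k T) ≤ ∑ T ∈ LE r, disc idx b T := by
    rw [← sum_image (f := fun T => disc idx b T) (g := shift b k)]
    · refine sum_le_sum_of_subset fun T hT => ?_
      obtain ⟨T', hT', rfl⟩ := mem_image.mp hT
      exact shift_mem hA hb (hRm T' hT').1 (hRm T' hT').2
    · rw [hR]
      exact shift_injOn
  have h4 := sum_disc h b
  have h5 : 8 * K * (LE r).card = 2 * (4 * K * (LE r).card) := by ring
  omega

/-- no long runs of elements of a lower set -/
theorem gap_A (h : Dis r idx K) {A : Finset P} (hA : ∀ x y, r x y → y ∈ A → x ∈ A) {b : P}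
    (hb : b ∉ A) {g : ℕ} (hrun : ∀ x, idx b < idx x → idx x ≤ idx b + g → x ∈ A)
    (hg : idx b + g < Fintype.card P) : g < 1104 * K ^ 2 := by
  by_contra hcon
  rw [not_lt] at hcon
  have hK := h.pos
  obtain ⟨N, hN⟩ : ∃ N, N = (LE r).card := ⟨_, rfl⟩
  have hN0 : 0 < N := by rw [hN]; exact card_pos.mpr h.ne
  obtain ⟨j, hj⟩ : ∃ j, j = idx b := ⟨_, rfl⟩
  obtain ⟨w, hw⟩ : ∃ w, w = 32 * K := ⟨_, rfl⟩
  rw [← hj] at hrun hg
  have hKK : K ≤ K ^ 2 := Nat.le_self_pow (by norm_num) K
  have hgw : 2 * w ≤ g := by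
    have : 2 * w ≤ 64 * K ^ 2 := by rw [hw]; omega
    omega
  obtain ⟨k, hk⟩ : ∃ k, k = g + 2 - 2 * w := ⟨_, rfl⟩
  have hk1 : 1040 * K ^ 2 < k := by
    have : 2 * w ≤ 64 * K ^ 2 := by rw [hw]; omega
    omega
  obtain ⟨cand, hcand⟩ : ∃ cand, cand = univ.filter fun y : P => y ∉ A ∧ j ≤ idx y + 2 * w ∧ idx y ≤ j :=
    ⟨_, rfl⟩
  have hcc : cand.card ≤ 65 * K := by
    have h1 : cand.card ≤ (Icc (j - 2 * w) j).card := by
      refine card_le_card_of_injOn idx ?_ h.inj.injOn
      intro y hy
      rw [hcand, mem_coe, mem_filter] at hy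
      rw [mem_coe, mem_Icc]
      omega
    rw [Nat.card_Icc] at h1
    omega
  -- the bad sets
  have hB : ∀ s, 8 * ((LE r).filter fun T => w ≤ cross idx s T).card ≤ N := by
    intro s
    have h1 := cross_tail h s w
    rw [← hN] at h1
    have h2 : 4 * K * (8 * ((LE r).filter fun T => w ≤ cross idx s T).card) ≤ 4 * K * N := by
      calc 4 * K * (8 * ((LE r).filter fun T => w ≤ cross idx s T).card)
          = w * ((LE r).filter fun T => w ≤ cross idx s T).card := by rw [hw]; ring
        _ ≤ _ := h1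
    exact Nat.le_of_mul_le_mul_left h2 (by omega)
  obtain ⟨B5, hB5⟩ : ∃ B5, B5 = cand.biUnion fun y => (LE r).filter fun T => Run A y k T := ⟨_, rfl⟩
  have hB5c : 2 * B5.card < N := by
    have h1 : k * B5.card ≤ 65 * K * (8 * K * N) := by
      calc k * B5.card ≤ k * ∑ y ∈ cand, ((LE r).filter fun T => Run A y k T).card := by
            rw [hB5]
            exact Nat.mul_le_mul_left _ card_biUnion_le
        _ = ∑ y ∈ cand, k * ((LE r).filter fun T => Run A y k T).card := mul_sum _ _ _
        _ ≤ ∑ y ∈ cand, 8 * K * N := by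
            refine sum_le_sum fun y hy => ?_
            rw [hcand, mem_filter] at hy
            rw [hN]
            exact run_tail h hA hy.2.1 k
        _ = cand.card * (8 * K * N) := by rw [sum_const, smul_eq_mul]
        _ ≤ _ := Nat.mul_le_mul_right _ hcc
    by_contra hc
    rw [not_lt] at hc
    have h2 : 1040 * K ^ 2 * N < k * N := Nat.mul_lt_mul_of_pos_right hk1 hN0
    have h3 : k * N ≤ k * (2 * B5.card) := Nat.mul_le_mul_left _ hc
    have h4 : 2 * (65 * K * (8 * K * N)) = 1040 * K ^ 2 * N := by ring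
    have h5 : k * (2 * B5.card) = 2 * (k * B5.card) := by ring
    omega
  obtain ⟨bad, hbad⟩ : ∃ bad, bad =
    ((((LE r).filter fun T => w ≤ cross idx (j + 1) T) ∪
      ((LE r).filter fun T => w ≤ cross idx (j + g + 1) T)) ∪
    (((LE r).filter fun T => w ≤ cross idx (j - 2 * w) T) ∪
      ((LE r).filter fun T => w ≤ cross idx j T))) ∪ B5 := ⟨_, rfl⟩
  have hbadc : bad.card < (LE r).card := by
    rw [← hN, hbad]
    refine (card_union_le _ _).trans_lt ?_
    have h1 := card_union_le (((LE r).filter fun T => w ≤ cross idx (j + 1) T) ∪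
      ((LE r).filter fun T => w ≤ cross idx (j + g + 1) T))
      (((LE r).filter fun T => w ≤ cross idx (j - 2 * w) T) ∪
      ((LE r).filter fun T => w ≤ cross idx j T))
    have h2 := card_union_le ((LE r).filter fun T => w ≤ cross idx (j + 1) T)
      ((LE r).filter fun T => w ≤ cross idx (j + g + 1) T)
    have h3 := card_union_le ((LE r).filter fun T => w ≤ cross idx (j - 2 * w) T)
      ((LE r).filter fun T => w ≤ cross idx j T)
    have h4 := hB (j + 1)
    have h5 := hB (j + g + 1)
    have h6 := hB (j - 2 * w)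
    have h7 := hB j
    omega
  obtain ⟨T, hT, hTb⟩ := exists_mem_notMem_of_card_lt_card hbadc
  obtain ⟨hT1, hT2, hT3⟩ := mem_LE.mp hT
  have hn1 : ∀ s, T ∉ ((LE r).filter fun T => w ≤ cross idx s T) → ¬ w ≤ cross idx s T :=
    fun s hs hc => hs (mem_filter.mpr ⟨hT, hc⟩)
  rw [hbad, mem_union, mem_union, mem_union, mem_union] at hTb
  push Not at hTb
  obtain ⟨⟨⟨c1, c2⟩, ⟨c3, c4⟩⟩, c5⟩ := hTb
  have c1 := hn1 _ c1
  have c2 := hn1 _ c2
  have c3 := hn1 _ c3
  have c4 := hn1 _ c4
  have d1 : ∀ y, idx y ≤ j → T y < j + w := by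
    intro y hy
    by_contra hc
    exact c1 (cross_of_late h hT (y := y) (by omega) (by omega))
  have d2 : ∀ x, j + g + 1 ≤ idx x → j + g + 1 < T x + w := by
    intro x hx
    by_contra hc
    exact c2 (cross_of_early h hT (x := x) hx (by omega))
  have d4 : j < T b + w := by
    by_contra hc
    exact c4 (cross_of_early h hT (x := b) hj.le (by omega))
  -- the last element outside `A` before `j + w`
  obtain ⟨y, hy, hymax⟩ := exists_max_image (univ.filter fun y : P => y ∉ A ∧ T y < j + w) T
    ⟨b, mem_filter.mpr ⟨mem_univ _, hb, d1 b hj.symm.le⟩⟩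
  obtain ⟨_, hyA, hyT⟩ := mem_filter.mp hy
  have hyb : T b ≤ T y := hymax b (mem_filter.mpr ⟨mem_univ _, hb, d1 b hj.symm.le⟩)
  have hyj : idx y ≤ j := by
    by_contra hc
    have h1 : ¬ idx y ≤ j + g := fun h1 => hyA (hrun y (by omega) h1)
    have h2 := d2 y (by omega)
    omega
  have hyj2 : j ≤ idx y + 2 * w := by
    by_contra hc
    exact c3 (cross_of_late h hT (y := y) (by omega) (by omega))
  refine c5 ?_
  rw [hB5, mem_biUnion]
  refine ⟨y, ?_, mem_filter.mpr ⟨hT, ?_⟩⟩
  · rw [hcand, mem_filter]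
    exact ⟨mem_univ _, hyA, hyj2, hyj⟩
  · intro i hi1 hi2
    obtain ⟨z, hz⟩ := exists_pos hT2 hT1 (t := T y + i) (by omega)
    rw [← hz]
    refine mem_image_of_mem _ ?_
    by_contra hzA
    rcases lt_or_ge (T z) (j + w) with h1 | h1
    · have := hymax z (mem_filter.mpr ⟨mem_univ _, hzA, h1⟩)
      omega
    · have h2 : j < idx z := by
        by_contra hc
        have := d1 z (by omega)
        omega
      have h3 : ¬ idx z ≤ j + g := fun h3 => hzA (hrun z h2 h3)
      have := d2 z (by omega)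
      omega

/-! ### Duality -/

/-- the reversed map -/
def rev (T : P → ℕ) (x : P) : ℕ := Fintype.card P - 1 - T x

lemma rev_mem {T : P → ℕ} (hT : T ∈ LE r) : rev T ∈ LE fun x y => r y x := by
  obtain ⟨hT1, hT2, hT3⟩ := mem_LE.mp hT
  refine mem_LE.mpr ⟨fun x => ?_, fun x y hxy => ?_, fun x y hxy => ?_⟩
  · unfold rev
    have := hT1 x
    omega
  · unfold rev at hxy
    have h1 := hT1 x
    have h2 := hT1 y
    exact hT2 (by omega)
  · unfold rev
    have h1 := hT1 x
    have h2 := hT1 y
    have := hT3 y x hxy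
    omega

lemma rev_rev {T : P → ℕ} (hT : T ∈ LE r) : rev (rev T) = T := by
  funext x
  unfold rev
  have := (mem_LE.mp hT).1 x
  omega

lemma card_rev (p : (P → ℕ) → Prop) [DecidablePred p] [DecidablePred fun T => p (rev T)] :
    ((LE fun x y => r y x).filter fun T => p (rev T)).card = ((LE r).filter p).card := by
  symm
  refine card_bij (fun T _ => rev T) ?_ ?_ ?_
  · intro T hT
    obtain ⟨h1, h2⟩ := mem_filter.mp hT
    refine mem_filter.mpr ⟨rev_mem h1, ?_⟩
    rw [rev_rev h1]
    exact h2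
  · intro T hT T' hT' heq
    rw [← rev_rev (mem_filter.mp hT).1, ← rev_rev (mem_filter.mp hT').1, heq]
  · intro T hT
    obtain ⟨h1, h2⟩ := mem_filter.mp hT
    exact ⟨rev T, mem_filter.mpr ⟨rev_mem h1, h2⟩, rev_rev h1⟩

lemma Dis.rev (h : Dis r idx K) : Dis (fun x y => r y x) (rev idx) K := by
  have hcard : (LE fun x y => r y x).card = (LE r).card := by
    have h1 := card_rev (r := r) fun _ => True
    simpa using h1
  refine ⟨fun x y hxy => ?_, fun x => ?_, h.pos, ?_, fun x z hxz => ?_⟩
  · unfold ID.rev at hxy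
    have h1 := h.lt x
    have h2 := h.lt y
    exact h.inj (by omega)
  · unfold ID.rev
    have := h.lt x
    omega
  · rw [← card_pos, hcard]
    exact card_pos.mpr h.ne
  · have h1 := h.lt x
    have h2 := h.lt z
    have h3 : idx z < idx x := by
      unfold ID.rev at hxz
      omega
    have h4 := h.dis z x h3
    have h5 : ((ID.rev idx z : ℕ) : ℝ) - (ID.rev idx x : ℕ) = (idx x : ℝ) - idx z := by
      have e1 : ID.rev idx z + idx z + 1 = Fintype.card P := by
        unfold ID.rev
        omega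
      have e2 : ID.rev idx x + idx x + 1 = Fintype.card P := by
        unfold ID.rev
        omega
      have e3 : ((ID.rev idx z : ℕ) : ℝ) + idx z + 1 = (ID.rev idx x : ℕ) + idx x + 1 := by
        exact_mod_cast e1.trans e2.symm
      linarith
    rw [h5, hcard]
    refine le_trans (le_of_eq ?_) h4
    have h8 := card_rev (r := r) fun T => T x < T z
    rw [← h8]
    congr 2
    refine filter_congr fun T hT => ?_
    have h6 := (mem_LE.mp hT).1 x
    have h7 := (mem_LE.mp hT).1 z
    unfold ID.rev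
    omega

/-- no long runs of elements outside a lower set -/
theorem gap_B (h : Dis r idx K) {A : Finset P} (hA : ∀ x y, r x y → y ∈ A → x ∈ A) {a : P}
    (ha : a ∈ A) {g : ℕ} (hg : g ≤ idx a)
    (hrun : ∀ x, idx x < idx a → idx a ≤ idx x + g → x ∉ A) : g < 1104 * K ^ 2 := by
  have hla := h.lt a
  refine gap_A h.rev (A := univ \ A) (b := a) ?_ ?_ ?_ ?_
  · intro x y hxy hy
    rw [mem_sdiff] at hy ⊢
    exact ⟨mem_univ _, fun hx => hy.2 (hA y x hxy hx)⟩
  · rw [mem_sdiff]
    exact fun hc => hc.2 ha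
  · intro x h1 h2
    rw [mem_sdiff]
    have hlx := h.lt x
    unfold ID.rev at h1 h2
    exact ⟨mem_univ _, hrun x (by omega) (by omega)⟩
  · unfold ID.rev
    omega

end Pool.Agent.Y491.ID
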