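import Pool.Agent.Y491.ID.Block

/-!
# The stretch of a lower set is short, and few elements are incomparable to a given one
-/

set_option autoImplicit false
set_option linter.unusedSectionVars false

open Finset
open scoped Classical

namespace Pool.Agent.Y491.ID

variable {P : Type} [Fintype P] {r : P → P → Prop} {idx : P → ℕ} {K : ℕ}

lemma window_B (h : Dis r idx K) {A : Finset P} (hA : ∀ x y, r x y → y ∈ A → x ∈ A) {b : P}
    (hb : b ∉ A) {p : ℕ} (hbp : idx b < p) (hp : p + 1104 * K ^ 2 ≤ Fintype.card P) :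
    ∃ x, x ∉ A ∧ p ≤ idx x ∧ idx x < p + 1104 * K ^ 2 := by
  by_contra hcon
  push Not at hcon
  have hK : 0 < K ^ 2 := by have := h.pos; positivity
  obtain ⟨y, hy, hymax⟩ := exists_max_image (univ.filter fun y : P => y ∉ A ∧ idx y < p) idx
    ⟨b, mem_filter.mpr ⟨mem_univ _, hb, hbp⟩⟩
  obtain ⟨_, hyA, hyp⟩ := mem_filter.mp hy
  have h1 := gap_A h hA hyA (g := p + 1104 * K ^ 2 - 1 - idx y) (fun x h1 h2 => ?_) (by omega)
  · omega
  · by_contra hx
    rcases lt_or_ge (idx x) p with h3 | h3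
    · have := hymax x (mem_filter.mpr ⟨mem_univ _, hx, h3⟩)
      omega
    · have := hcon x hx h3
      omega

lemma window_A (h : Dis r idx K) {A : Finset P} (hA : ∀ x y, r x y → y ∈ A → x ∈ A) {a : P}
    (ha : a ∈ A) {p : ℕ} (hp : p + 1104 * K ^ 2 ≤ idx a) :
    ∃ x, x ∈ A ∧ p ≤ idx x ∧ idx x < p + 1104 * K ^ 2 := by
  by_contra hcon
  push Not at hcon
  obtain ⟨y, hy, hymin⟩ := exists_min_image
    (univ.filter fun y : P => y ∈ A ∧ p + 1104 * K ^ 2 ≤ idx y) idx
    ⟨a, mem_filter.mpr ⟨mem_univ _, ha, hp⟩⟩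
  obtain ⟨_, hyA, hyp⟩ := mem_filter.mp hy
  have h1 := gap_B h hA hyA (g := idx y - p) (by omega) (fun x h1 h2 => ?_)
  · omega
  · intro hx
    rcases lt_or_ge (idx x) (p + 1104 * K ^ 2) with h3 | h3
    · have := hcon x hx (by omega)
      omega
    · have := hymin x (mem_filter.mpr ⟨mem_univ _, hx, h3⟩)
      omega

lemma step_A (h : Dis r idx K) {A : Finset P} (hA : ∀ x y, r x y → y ∈ A → x ∈ A) {a : P}
    (ha : a ∈ A) {p m : ℕ} (hp : p + 1104 * K ^ 2 * m ≤ idx a) :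
    iA A idx p + m ≤ iA A idx (p + 1104 * K ^ 2 * m) := by
  induction m with
  | zero => simp
  | succ m ih =>
    have hm : p + 1104 * K ^ 2 * (m + 1) = p + 1104 * K ^ 2 * m + 1104 * K ^ 2 := by ring
    have hm' : 1104 * K ^ 2 * (m + 1) = 1104 * K ^ 2 * m + 1104 * K ^ 2 := by ring
    rw [hm] at hp ⊢
    obtain ⟨q, hq⟩ : ∃ q, q = p + 1104 * K ^ 2 * m := ⟨_, rfl⟩
    have hih := ih (by omega)
    rw [← hq] at hp ⊢
    rw [← hq] at hih
    obtain ⟨x, hx, hx1, hx2⟩ := window_A h hA ha hp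
    have h1 : iA A idx q + 1 ≤ iA A idx (q + 1104 * K ^ 2) := by
      unfold iA
      have h2 : insert x (A.filter fun a => idx a < q) ⊆ A.filter fun a => idx a < q + 1104 * K ^ 2 := by
        intro z hz
        rw [mem_insert] at hz
        rcases hz with rfl | hz
        · exact mem_filter.mpr ⟨hx, hx2⟩
        · obtain ⟨h3, h4⟩ := mem_filter.mp hz
          exact mem_filter.mpr ⟨h3, by omega⟩
      have h3 := card_le_card h2
      rw [card_insert_of_notMem] at h3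
      · exact h3
      · rw [mem_filter]
        omega
    omega

lemma step_B (h : Dis r idx K) {A : Finset P} (hA : ∀ x y, r x y → y ∈ A → x ∈ A) {b : P}
    (hb : b ∉ A) {p m : ℕ} (hbp : idx b < p) (hp : p + 1104 * K ^ 2 * m ≤ Fintype.card P) :
    iA A idx (p + 1104 * K ^ 2 * m) + m ≤ iA A idx p + 1104 * K ^ 2 * m := by
  induction m with
  | zero => simp
  | succ m ih =>
    have hm : p + 1104 * K ^ 2 * (m + 1) = p + 1104 * K ^ 2 * m + 1104 * K ^ 2 := by ring
    have hm' : 1104 * K ^ 2 * (m + 1) = 1104 * K ^ 2 * m + 1104 * K ^ 2 := by ring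
    rw [hm] at hp ⊢
    obtain ⟨q, hq⟩ : ∃ q, q = p + 1104 * K ^ 2 * m := ⟨_, rfl⟩
    have hih := ih (by omega)
    rw [← hq] at hp ⊢
    rw [← hq] at hih
    obtain ⟨x, hx, hx1, hx2⟩ := window_B h hA hb (p := q) (by omega) hp
    have h1 : iA A idx (q + 1104 * K ^ 2) + 1 ≤ iA A idx q + 1104 * K ^ 2 := by
      have e1 := iA_compl A h.inj h.lt hp
      have e2 := iA_compl A h.inj h.lt (t := q) (by omega)
      have h2 : insert x (univ.filter fun z => z ∉ A ∧ idx z < q) ⊆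
          univ.filter fun z => z ∉ A ∧ idx z < q + 1104 * K ^ 2 := by
        intro z hz
        rw [mem_insert] at hz
        rcases hz with rfl | hz
        · exact mem_filter.mpr ⟨mem_univ _, hx, hx2⟩
        · obtain ⟨h3, h4, h5⟩ := mem_filter.mp hz
          exact mem_filter.mpr ⟨h3, h4, by omega⟩
      have h3 := card_le_card h2
      rw [card_insert_of_notMem] at h3
      · omega
      · rw [mem_filter]
        omega
    omega

/-- the length bound -/
def LL (K : ℕ) : ℕ :=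
  (8 * (4 * (4000 * K ^ 2) ^ 2) * (1104 * K ^ 2) + 2) * (8 * (4 * (4000 * K ^ 2) ^ 2) * (1104 * K ^ 2))

/-- an element of a lower set is not much later than an element outside of it -/
theorem stretch (h : Dis r idx K) {A : Finset P} (hA : ∀ x y, r x y → y ∈ A → x ∈ A) {a b : P}
    (ha : a ∈ A) (hb : b ∉ A) : idx a ≤ idx b + LL K := by
  by_contra hcon
  rw [not_le] at hcon
  obtain ⟨G, hG⟩ : ∃ G, G = 1104 * K ^ 2 := ⟨_, rfl⟩
  obtain ⟨δ, hδ⟩ : ∃ δ, δ = 4000 * K ^ 2 := ⟨_, rfl⟩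
  obtain ⟨κ, hκ⟩ : ∃ κ, κ = 4 * δ ^ 2 := ⟨_, rfl⟩
  obtain ⟨ℓ, hℓ⟩ : ∃ ℓ, ℓ = 8 * κ * G := ⟨_, rfl⟩
  have hLL : LL K = (ℓ + 2) * ℓ := by
    unfold LL
    rw [hℓ, hκ, hδ, hG]
  rw [hLL] at hcon
  have hla := h.lt a
  obtain ⟨p, hp⟩ : ∃ p, p = idx b + 1 := ⟨_, rfl⟩
  -- block counts
  have hblock : ∀ q, p ≤ q → q + ℓ ≤ idx a → iA A idx q + 8 * κ ≤ iA A idx (q + ℓ) ∧
      iA A idx (q + ℓ) + 8 * κ ≤ iA A idx q + ℓ := by
    intro q hq1 hq2
    have e0 : 1104 * K ^ 2 * (8 * κ) = ℓ := by rw [hℓ, hG]; ring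
    have e1 := step_A h hA ha (p := q) (m := 8 * κ) (by rw [e0]; exact hq2)
    have e2 := step_B h hA hb (p := q) (m := 8 * κ) (by omega) (by rw [e0]; omega)
    rw [e0] at e1 e2
    exact ⟨e1, e2⟩
  obtain ⟨d, hd⟩ : ∃ d : ℕ → ℕ, d = fun i => iA A idx (p + ℓ * (i + 1)) - iA A idx (p + ℓ * i) :=
    ⟨_, rfl⟩
  have hdec : ∀ i, i ≤ ℓ + 1 → d i + i ≤ ℓ := by
    intro i
    induction i with
    | zero =>
      intro _
      have e1 : p + ℓ ≤ idx a := by nlinarith
      have e2 := (hblock p le_rfl e1).2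
      rw [hd]
      simp only [Nat.mul_zero, add_zero, zero_add, Nat.mul_one]
      omega
    | succ i ih =>
      intro hi
      have e0 := ih (by omega)
      have e1 : p + ℓ * i + 2 * ℓ ≤ idx a := by nlinarith
      obtain ⟨q, hq⟩ : ∃ q, q = p + ℓ * i := ⟨_, rfl⟩
      have e2 : p + ℓ * (i + 1) = q + ℓ := by rw [hq]; ring
      have e3 : p + ℓ * (i + 1 + 1) = q + 2 * ℓ := by rw [hq]; ring
      rw [← hq] at e1
      have f1 := hblock q (by rw [hq]; exact Nat.le_add_right _ _) (by omega)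
      have f2 := hblock (q + ℓ) (by rw [hq]; omega) (by omega)
      have e4 : q + ℓ + ℓ = q + 2 * ℓ := by ring
      rw [e4] at f2
      have f3 := block_lt h hA hδ hκ hG hℓ (t := q) (by omega) f1.1 f1.2 f2.1 f2.2
      rw [hd] at e0 ⊢
      simp only at e0 ⊢
      rw [e2, e3]
      rw [e2, ← hq] at e0
      omega
  have := hdec (ℓ + 1) le_rfl
  omega

/-- few elements are incomparable to a given one -/
theorem incomp_le [PartialOrder P] (h : Dis (fun x y : P => x < y) idx K) (x : P) :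
    (univ.filter fun y : P => ¬ x ≤ y ∧ ¬ y ≤ x).card ≤ 2 * LL K + 1 := by
  have h1 : ∀ y, ¬ x ≤ y → idx y ≤ idx x + LL K := by
    intro y hy
    refine stretch h (A := univ.filter fun z => ¬ x ≤ z) ?_ ?_ ?_
    · intro u v huv hv
      rw [mem_filter] at hv ⊢
      exact ⟨mem_univ _, fun hu => hv.2 (hu.trans huv.le)⟩
    · exact mem_filter.mpr ⟨mem_univ _, hy⟩
    · rw [mem_filter]
      exact fun hc => hc.2 le_rfl
  have h2 : ∀ y, ¬ y ≤ x → idx x ≤ idx y + LL K := by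
    intro y hy
    refine stretch h (A := univ.filter fun z => z ≤ x) ?_ ?_ ?_
    · intro u v huv hv
      rw [mem_filter] at hv ⊢
      exact ⟨mem_univ _, huv.le.trans hv.2⟩
    · exact mem_filter.mpr ⟨mem_univ _, le_rfl⟩
    · rw [mem_filter]
      exact fun hc => hy hc.2
  have h3 : (univ.filter fun y : P => ¬ x ≤ y ∧ ¬ y ≤ x).card ≤
      (Icc (idx x - LL K) (idx x + LL K)).card := by
    refine card_le_card_of_injOn idx ?_ h.inj.injOn
    intro y hy
    obtain ⟨_, hy1, hy2⟩ := mem_filter.mp (mem_coe.mp hy)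
    have e1 := h1 y hy1
    have e2 := h2 y hy2
    rw [mem_coe, mem_Icc]
    omega
  rw [Nat.card_Icc] at h3
  omega

end Pool.Agent.Y491.ID
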