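import Mathlib

/-!
# Linear extensions as words

`A` is a lower set of the relation `r`.  A linear extension `T` is determined by the word of its
letters (the set of the positions of the elements of `A`) and by the orders on `A` and on the
complement.  Moving letters of `A` to the front keeps a linear extension.
-/

set_option autoImplicit false

open Finset
open scoped Classical

namespace Pool.Agent.Y491.ID

/-- the letter at position `t`; from position `n` on the letters alternate -/
def lt1 (n : ℕ) (w : Finset ℕ) (t : ℕ) : Prop := t ∈ w ∨ (n ≤ t ∧ Even t)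

lemma inf1 (n : ℕ) (w : Finset ℕ) : (Set.ofPred (lt1 n w)).Infinite := by
  refine Set.infinite_of_forall_exists_gt fun a => ⟨2 * (a + n + 1), Or.inr ⟨by omega, ?_⟩, by omega⟩
  exact even_two_mul _

lemma inf2 {n : ℕ} {w : Finset ℕ} (hw : w ⊆ range n) :
    (Set.ofPred (fun t => ¬ lt1 n w t)).Infinite := by
  refine Set.infinite_of_forall_exists_gt fun a => ⟨2 * (a + n) + 1, ?_, by omega⟩
  show ¬ lt1 n w (2 * (a + n) + 1)
  rintro (h | ⟨_, h⟩)
  · have := mem_range.mp (hw h)
    omega
  · obtain ⟨k, hk⟩ := h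
    omega

lemma count_add_not (p : ℕ → Prop) (t : ℕ) :
    Nat.count p t + Nat.count (fun s => ¬ p s) t = t := by
  induction t with
  | zero => simp
  | succ t ih =>
    rw [Nat.count_succ, Nat.count_succ]
    by_cases h : p t <;> simp only [h, not_true_eq_false, not_false_eq_true, if_true, if_false] <;>
      omega

/-- number of letters `A` before `t` -/
def cnt (w : Finset ℕ) (t : ℕ) : ℕ := (w.filter fun s => s < t).card

lemma count_lt1 {n : ℕ} {w : Finset ℕ} {t : ℕ} (ht : t ≤ n) :
    Nat.count (lt1 n w) t = cnt w t := by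
  rw [Nat.count_eq_card_filter_range]
  unfold cnt
  congr 1
  ext s
  simp only [mem_filter, mem_range, lt1]
  constructor
  · rintro ⟨h1, h2 | ⟨h2, _⟩⟩
    · exact ⟨h2, h1⟩
    · omega
  · rintro ⟨h1, h2⟩
    exact ⟨h2, Or.inl h1⟩

lemma count_dom {n : ℕ} {w w' : Finset ℕ} (hw : w ⊆ range n) (hw' : w' ⊆ range n)
    (h : ∀ t, t ≤ n → cnt w t ≤ cnt w' t) (t : ℕ) :
    Nat.count (lt1 n w) t ≤ Nat.count (lt1 n w') t := by
  rcases le_total t n with ht | ht
  · rw [count_lt1 ht, count_lt1 ht]
    exact h t ht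
  · obtain ⟨k, rfl⟩ := Nat.exists_eq_add_of_le ht
    clear ht
    induction k with
    | zero =>
      rw [Nat.add_zero, count_lt1 le_rfl, count_lt1 le_rfl]
      exact h n le_rfl
    | succ k ih =>
      rw [← Nat.add_assoc, Nat.count_succ, Nat.count_succ]
      have h1 : lt1 n w (n + k) ↔ Even (n + k) := by
        unfold lt1
        constructor
        · rintro (h | h)
          · have := mem_range.mp (hw h)
            omega
          · exact h.2
        · intro h
          exact Or.inr ⟨by omega, h⟩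
      have h2 : lt1 n w' (n + k) ↔ Even (n + k) := by
        unfold lt1
        constructor
        · rintro (h | h)
          · have := mem_range.mp (hw' h)
            omega
          · exact h.2
        · intro h
          exact Or.inr ⟨by omega, h⟩
      by_cases he : Even (n + k)
      · rw [if_pos (h1.mpr he), if_pos (h2.mpr he)]
        omega
      · rw [if_neg (fun h => he (h1.mp h)), if_neg (fun h => he (h2.mp h))]
        omega

variable {P : Type} [Fintype P]

/-- the linear extensions of `r`, with values `0, …, |P| - 1` -/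
noncomputable def LE (r : P → P → Prop) : Finset (P → ℕ) :=
  (Fintype.piFinset fun _ => range (Fintype.card P)).filter fun T =>
    Function.Injective T ∧ ∀ x y, r x y → T x < T y

variable {r : P → P → Prop}

lemma mem_LE {T : P → ℕ} : T ∈ LE r ↔ (∀ x, T x < Fintype.card P) ∧ Function.Injective T ∧
    ∀ x y, r x y → T x < T y := by
  unfold LE
  rw [mem_filter, Fintype.mem_piFinset]
  simp only [mem_range]

/-- the rank of an element in its class -/
noncomputable def rk (A : Finset P) (T : P → ℕ) (x : P) : ℕ :=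
  if x ∈ A then Nat.count (lt1 (Fintype.card P) (A.image T)) (T x)
  else Nat.count (fun t => ¬ lt1 (Fintype.card P) (A.image T) t) (T x)

/-- the linear extension with given word and given ranks -/
noncomputable def mk (A : Finset P) (w : Finset ℕ) (ρ : P → ℕ) (x : P) : ℕ :=
  if x ∈ A then Nat.nth (lt1 (Fintype.card P) w) (ρ x)
  else Nat.nth (fun t => ¬ lt1 (Fintype.card P) w t) (ρ x)

lemma image_sub {A : Finset P} {T : P → ℕ} (hT : T ∈ LE r) :
    A.image T ⊆ range (Fintype.card P) := by
  intro s hs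
  obtain ⟨a, _, rfl⟩ := mem_image.mp hs
  exact mem_range.mpr ((mem_LE.mp hT).1 a)

lemma lt1_of_mem {A : Finset P} {T : P → ℕ} {x : P} (hx : x ∈ A) :
    lt1 (Fintype.card P) (A.image T) (T x) := Or.inl (mem_image_of_mem _ hx)

lemma not_lt1_of_not_mem {A : Finset P} {T : P → ℕ} (hT : T ∈ LE r) {x : P} (hx : x ∉ A) :
    ¬ lt1 (Fintype.card P) (A.image T) (T x) := by
  rintro (h | h)
  · obtain ⟨a, ha, hax⟩ := mem_image.mp h
    exact hx ((mem_LE.mp hT).2.1 hax ▸ ha)
  · have := (mem_LE.mp hT).1 x
    omega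

lemma mk_rk {A : Finset P} {T : P → ℕ} (hT : T ∈ LE r) : mk A (A.image T) (rk A T) = T := by
  funext x
  unfold mk rk
  by_cases hx : x ∈ A
  · rw [if_pos hx, if_pos hx]
    exact Nat.nth_count (lt1_of_mem hx)
  · rw [if_neg hx, if_neg hx]
    exact Nat.nth_count (p := fun t => ¬ lt1 (Fintype.card P) (A.image T) t)
      (not_lt1_of_not_mem hT hx)

/-- a linear extension is determined by its word and its ranks -/
lemma eq_of_rk {A : Finset P} {T T' : P → ℕ} (hT : T ∈ LE r) (hT' : T' ∈ LE r)
    (h1 : A.image T = A.image T') (h2 : rk A T = rk A T') : T = T' := by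
  rw [← mk_rk (A := A) hT, ← mk_rk (A := A) hT', h1, h2]

/-- moving the letters of a lower set to the front -/
theorem mk_mem {A : Finset P} (hA : ∀ x y, r x y → y ∈ A → x ∈ A) {T : P → ℕ} (hT : T ∈ LE r)
    {w : Finset ℕ} (hw : w ⊆ range (Fintype.card P)) (hwc : w.card = (A.image T).card)
    (hdom : ∀ t, t ≤ Fintype.card P → cnt (A.image T) t ≤ cnt w t) :
    mk A w (rk A T) ∈ LE r ∧ A.image (mk A w (rk A T)) = w ∧
      rk A (mk A w (rk A T)) = rk A T := by
  obtain ⟨n, hn⟩ : ∃ n, n = Fintype.card P := ⟨_, rfl⟩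
  obtain ⟨w₀, hw₀⟩ : ∃ w₀, w₀ = A.image T := ⟨_, rfl⟩
  have hT' := mem_LE.mp hT
  have hw₀s : w₀ ⊆ range n := by rw [hw₀, hn]; exact image_sub hT
  rw [← hn] at hw hdom
  rw [← hw₀] at hdom hwc
  have hcount : ∀ t, Nat.count (lt1 n w₀) t ≤ Nat.count (lt1 n w) t := count_dom hw₀s hw hdom
  have hcn : Nat.count (lt1 n w₀) n = Nat.count (lt1 n w) n := by
    rw [count_lt1 le_rfl, count_lt1 le_rfl]
    unfold cnt
    rw [filter_true_of_mem fun s hs => mem_range.mp (hw₀s hs),
      filter_true_of_mem fun s hs => mem_range.mp (hw hs), hwc]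
  have hcn' : Nat.count (fun t => ¬ lt1 n w₀ t) n = Nat.count (fun t => ¬ lt1 n w t) n := by
    have h1 := count_add_not (lt1 n w₀) n
    have h2 := count_add_not (lt1 n w) n
    omega
  obtain ⟨ρ, hρ⟩ : ∃ ρ, ρ = rk A T := ⟨_, rfl⟩
  have hρA : ∀ x, x ∈ A → ρ x = Nat.count (lt1 n w₀) (T x) := by
    intro x hx
    rw [hρ, hw₀, hn]
    unfold rk
    rw [if_pos hx]
  have hρB : ∀ x, x ∉ A → ρ x = Nat.count (fun t => ¬ lt1 n w₀ t) (T x) := by
    intro x hx
    rw [hρ, hw₀, hn]
    unfold rk
    rw [if_neg hx]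
  have hpA : ∀ x, x ∈ A → lt1 n w₀ (T x) := by
    intro x hx
    rw [hw₀, hn]
    exact lt1_of_mem hx
  have hpB : ∀ x, x ∉ A → ¬ lt1 n w₀ (T x) := by
    intro x hx
    rw [hw₀, hn]
    exact not_lt1_of_not_mem hT hx
  rw [← hρ]
  obtain ⟨T₁, hT₁⟩ : ∃ T₁, T₁ = mk A w ρ := ⟨_, rfl⟩
  rw [← hT₁]
  have hA1 : ∀ x, x ∈ A → T₁ x = Nat.nth (lt1 n w) (ρ x) := by
    intro x hx
    rw [hT₁, hn]
    unfold mk
    rw [if_pos hx]
  have hB1 : ∀ x, x ∉ A → T₁ x = Nat.nth (fun t => ¬ lt1 n w t) (ρ x) := by
    intro x hx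
    rw [hT₁, hn]
    unfold mk
    rw [if_neg hx]
  have hi1 := inf1 n w
  have hi2 := inf2 hw
  have hmA : ∀ x, x ∈ A → lt1 n w (T₁ x) := by
    intro x hx
    rw [hA1 x hx]
    exact Nat.nth_mem_of_infinite hi1 _
  have hmB : ∀ x, x ∉ A → ¬ lt1 n w (T₁ x) := by
    intro x hx
    rw [hB1 x hx]
    exact Nat.nth_mem_of_infinite hi2 _
  have hlt : ∀ x, T₁ x < n := by
    intro x
    have hxn : T x < n := by rw [hn]; exact hT'.1 x
    by_cases hx : x ∈ A
    · rw [hA1 x hx]
      refine Nat.nth_lt_of_lt_count ?_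
      rw [hρA x hx, ← hcn]
      exact Nat.count_strict_mono (hpA x hx) hxn
    · rw [hB1 x hx]
      refine Nat.nth_lt_of_lt_count ?_
      rw [hρB x hx, ← hcn']
      exact Nat.count_strict_mono (p := fun t => ¬ lt1 n w₀ t) (hpB x hx) hxn
  have hinj : Function.Injective T₁ := by
    intro x y hxy
    by_cases hx : x ∈ A
    · by_cases hy : y ∈ A
      · rw [hA1 x hx, hA1 y hy] at hxy
        have h1 := Nat.nth_injective hi1 hxy
        rw [hρA x hx, hρA y hy] at h1
        exact hT'.2.1 (Nat.count_injective (hpA x hx) (hpA y hy) h1)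
      · exact absurd (hxy ▸ hmA x hx) (hmB y hy)
    · by_cases hy : y ∈ A
      · exact absurd (hxy.symm ▸ hmA y hy) (hmB x hx)
      · rw [hB1 x hx, hB1 y hy] at hxy
        have h1 := Nat.nth_injective hi2 hxy
        rw [hρB x hx, hρB y hy] at h1
        exact hT'.2.1 (Nat.count_injective (p := fun t => ¬ lt1 n w₀ t) (hpB x hx) (hpB y hy) h1)
  have hord : ∀ x y, r x y → T₁ x < T₁ y := by
    intro x y hxy
    have h0 := hT'.2.2 x y hxy
    by_cases hx : x ∈ A
    · by_cases hy : y ∈ A
      · rw [hA1 x hx, hA1 y hy]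
        refine Nat.nth_strictMono hi1 ?_
        rw [hρA x hx, hρA y hy]
        exact Nat.count_strict_mono (hpA x hx) h0
      · have h1 : T₁ x < T x + 1 := by
          rw [hA1 x hx]
          refine Nat.nth_lt_of_lt_count ?_
          have h2 := hcount (T x + 1)
          rw [Nat.count_succ, if_pos (hpA x hx), ← hρA x hx] at h2
          omega
        have h2 : T y ≤ T₁ y := by
          rw [hB1 y hy]
          refine (Nat.count_le_iff_le_nth hi2).mp ?_
          rw [hρB y hy]
          have h3 := count_add_not (lt1 n w₀) (T y)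
          have h4 := count_add_not (lt1 n w) (T y)
          have h5 := hcount (T y)
          omega
        omega
    · by_cases hy : y ∈ A
      · exact absurd (hA x y hxy hy) hx
      · rw [hB1 x hx, hB1 y hy]
        refine Nat.nth_strictMono hi2 ?_
        rw [hρB x hx, hρB y hy]
        exact Nat.count_strict_mono (p := fun t => ¬ lt1 n w₀ t) (hpB x hx) h0
  have himg : A.image T₁ = w := by
    refine Finset.eq_of_subset_of_card_le ?_ ?_
    · intro s hs
      obtain ⟨a, ha, rfl⟩ := mem_image.mp hs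
      rcases hmA a ha with h | h
      · exact h
      · have := hlt a
        omega
    · rw [hwc, hw₀, card_image_of_injective _ hinj, card_image_of_injective _ hT'.2.1]
  refine ⟨mem_LE.mpr ⟨fun x => by rw [← hn]; exact hlt x, hinj, hord⟩, himg, ?_⟩
  funext x
  unfold rk
  rw [himg, ← hn]
  by_cases hx : x ∈ A
  · rw [if_pos hx, hA1 x hx]
    exact Nat.count_nth_of_infinite hi1 _
  · rw [if_neg hx, hB1 x hx]
    exact Nat.count_nth_of_infinite (p := fun t => ¬ lt1 n w t) hi2 _

end Pool.Agent.Y491.ID
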